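import Pool.Agent.Q43.QF.Main

/-!
# Quasi-`F`-purity of Fermat hypersurfaces when `p ≡ 2 mod n`

Question Q1 of MP_34f229_ag.  Let `k` be a perfect field of characteristic `p > 2`, let `n ≥ 3`
with `p ≡ 2 mod n`, and let `1 < d < n`.  Then `R = k[x_1, ..., x_n]/(x_1^d + ... + x_n^d)` is
quasi-`F`-pure; in fact `Φ_{R,2}` splits, so `R` is `2`-quasi-`F`-pure.  With
`a = (p - 2)/n` this contains all `d` with `⌈p/(a+1)⌉ ≤ d < n`, the range of Q1, so Q1 has an
affirmative answer (and the quasi-`F`-pure height is at most `2` there).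

The definitions follow the problem file: `W_ℓ(S)` is Mathlib's `TruncatedWittVector p ℓ S`,
`wFrob` is its Frobenius (every component is raised to the `p`-th power), `wRes` is the
restriction `W_ℓ(S) → S`, `FStarW` is `F_* W_ℓ(S)`, `QMod` is `Q_{S,ℓ}` and `Phi` is `Φ_{S,ℓ}`.
-/

namespace Pool.Agent.Results.MP_34f229_ag.FermatQuasiFPure

open Q43.QF TensorProduct

universe u

section defs

variable (p : ℕ) [hp : Fact p.Prime] (m : ℕ) (S : Type u) [CommRing S]

/-- The restriction `R^{ℓ-1} : W_ℓ(S) → S`, `ℓ = m + 1`: the component of index `0`. -/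
noncomputable def wRes : TruncatedWittVector p (m + 1) S →+* S where
  toFun x := x.coeff 0
  map_one' := by
    have h : (1 : TruncatedWittVector p (m + 1) S) =
      WittVector.truncate (m + 1) (1 : WittVector p S) := (map_one _).symm
    rw [h, WittVector.coeff_truncate]
    exact WittVector.one_coeff_zero p S
  map_zero' := TruncatedWittVector.coeff_zero _ _ _ _
  map_mul' x y := by
    obtain ⟨X, rfl⟩ := WittVector.truncate_surjective p (m + 1) S x
    obtain ⟨Y, rfl⟩ := WittVector.truncate_surjective p (m + 1) S y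
    rw [← map_mul, WittVector.coeff_truncate, WittVector.coeff_truncate,
      WittVector.coeff_truncate]
    exact WittVector.mul_coeff_zero X Y
  map_add' x y := by
    obtain ⟨X, rfl⟩ := WittVector.truncate_surjective p (m + 1) S x
    obtain ⟨Y, rfl⟩ := WittVector.truncate_surjective p (m + 1) S y
    rw [← map_add, WittVector.coeff_truncate, WittVector.coeff_truncate,
      WittVector.coeff_truncate]
    exact WittVector.add_coeff_zero X Y

/-- `S` is a `W_ℓ(S)`-algebra (in particular a module) via the restriction `R^{ℓ-1}`. -/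
noncomputable instance instAlgebraRes : Algebra (TruncatedWittVector p (m + 1) S) S :=
  (wRes p m S).toAlgebra

/-- `F_* W_ℓ(S)`, `ℓ = m + 1`: the additive group `W_ℓ(S)`, with the `W_ℓ(S)`-module structure
through the Frobenius (next two instances). -/
def FStarW : Type u := TruncatedWittVector p (m + 1) S

noncomputable instance : AddCommGroup (FStarW p m S) :=
  (TruncatedWittVector.instCommRing p (m + 1) S).toAddCommGroup

variable [CharP S p]

/-- `w ∈ W_ℓ(S)` acts on `ξ ∈ F_* W_ℓ(S)` as `F(w) ξ`. -/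
noncomputable instance : Module (TruncatedWittVector p (m + 1) S) (FStarW p m S) :=
  Module.compHom (TruncatedWittVector p (m + 1) S) (wFrob p (m + 1) S)

/-- `Q_{S,ℓ}`, `ℓ = m + 1`: the tensor product `S ⊗_{W_ℓ(S)} F_* W_ℓ(S)`. -/
def QMod : Type u := S ⊗[TruncatedWittVector p (m + 1) S] FStarW p m S

noncomputable instance : AddCommGroup (QMod p m S) := TensorProduct.addCommGroup

/-- The `S`-module structure of `Q_{S,ℓ}`, through the factor `S`. -/
noncomputable instance : Module S (QMod p m S) := TensorProduct.leftModule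

/-- The element `s ⊗ ξ` of `Q_{S,ℓ}`. -/
noncomputable def qTmul (s : S) (ξ : FStarW p m S) : QMod p m S :=
  s ⊗ₜ[TruncatedWittVector p (m + 1) S] ξ

/-- The Frobenius as a map `W_ℓ(S) → F_* W_ℓ(S)`, `ℓ = m + 1` (it is `W_ℓ(S)`-linear). -/
noncomputable def frobTo (w : TruncatedWittVector p (m + 1) S) : FStarW p m S :=
  wFrob p (m + 1) S w

/-- `Φ_{S,ℓ} : S → Q_{S,ℓ}`, `ℓ = m + 1`: the `S`-linear map induced by the Frobenius
`F : W_ℓ(S) → F_* W_ℓ(S)`, that is `s ↦ s ⊗ F(1)`. -/
noncomputable def Phi : S →ₗ[S] QMod p m S where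
  toFun s := qTmul p m S s (frobTo p m S 1)
  map_add' s t := TensorProduct.add_tmul s t _
  map_smul' s t := TensorProduct.smul_tmul' s t _

end defs

/-- A linear map `f : M → N` of `S`-modules is pure if it stays injective after tensoring with
any `S`-module. -/
def IsPure {S : Type u} [CommRing S] {M N : Type u} [AddCommGroup M] [AddCommGroup N]
    [Module S M] [Module S N] (f : M →ₗ[S] N) : Prop :=
  ∀ (P : Type u) [AddCommGroup P] [Module S P], Function.Injective (LinearMap.rTensor P f)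

/-- `S` is `ℓ`-quasi-`F`-pure (`ℓ ≥ 1`): `S` has characteristic `p` and `Φ_{S,ℓ}` is pure. -/
def IsQuasiFPureOfLength (p : ℕ) [Fact p.Prime] (ℓ : ℕ) (S : Type u) [CommRing S] : Prop :=
  ∃ (_ : CharP S p) (m : ℕ), ℓ = m + 1 ∧ IsPure (Phi p m S)

/-- `S` is `ℓ`-quasi-`F`-split (`ℓ ≥ 1`): `S` has characteristic `p` and `Φ_{S,ℓ}` splits. -/
def IsQuasiFSplitOfLength (p : ℕ) [Fact p.Prime] (ℓ : ℕ) (S : Type u) [CommRing S] : Prop :=
  ∃ (_ : CharP S p) (m : ℕ), ℓ = m + 1 ∧
    ∃ r : QMod p m S →ₗ[S] S, r ∘ₗ Phi p m S = LinearMap.id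

/-- `S` is quasi-`F`-pure: it is `ℓ`-quasi-`F`-pure for some `ℓ ≥ 1`. -/
def IsQuasiFPure (p : ℕ) [Fact p.Prime] (S : Type u) [CommRing S] : Prop :=
  ∃ ℓ : ℕ, 1 ≤ ℓ ∧ IsQuasiFPureOfLength p ℓ S

/-- The ring `R = k[x_1, ..., x_n]/(x_1^d + ... + x_n^d)`. -/
abbrev FermatRing (k : Type u) [Field k] (n d : ℕ) : Type u :=
  MvPolynomial (Fin n) k ⧸
    Ideal.span {(∑ i : Fin n, MvPolynomial.X i ^ d : MvPolynomial (Fin n) k)}

section lemmas

variable {p : ℕ} [hp : Fact p.Prime] {m : ℕ} {S : Type u} [CommRing S] [CharP S p]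

/-- A splitting from a semilinear map. -/
lemma split_of_sigma (σ : TruncatedWittVector p (m + 1) S →+ S)
    (hσ : ∀ w x, σ (wFrob p (m + 1) S w * x) = w.coeff 0 * σ x) (h1 : σ 1 = 1) :
    ∃ r : QMod p m S →ₗ[S] S, r ∘ₗ Phi p m S = LinearMap.id := by
  let σl : FStarW p m S →ₗ[TruncatedWittVector p (m + 1) S] S :=
    { toFun := fun x => σ x
      map_add' := fun x y => map_add σ x y
      map_smul' := fun w x => hσ w x }
  let r : S ⊗[TruncatedWittVector p (m + 1) S] FStarW p m S →ₗ[S] S :=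
    AlgebraTensorModule.lift (LinearMap.toSpanSingleton S
      (FStarW p m S →ₗ[TruncatedWittVector p (m + 1) S] S) σl)
  have hr : r (1 ⊗ₜ[TruncatedWittVector p (m + 1) S] frobTo p m S 1) = 1 := by
    simp only [r]
    rw [AlgebraTensorModule.lift_tmul, LinearMap.toSpanSingleton_apply, one_smul]
    change σ (wFrob p (m + 1) S 1) = 1
    rw [map_one]
    exact h1
  refine ⟨r, ?_⟩
  ext
  exact hr

lemma isPure_of_split {S : Type u} [CommRing S] {M N : Type u} [AddCommGroup M] [AddCommGroup N]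
    [Module S M] [Module S N] (f : M →ₗ[S] N) (r : N →ₗ[S] M) (h : r ∘ₗ f = LinearMap.id) :
    IsPure f := by
  intro P _ _
  apply Function.LeftInverse.injective (g := LinearMap.rTensor P r)
  intro x
  rw [← LinearMap.comp_apply, ← LinearMap.rTensor_comp, h, LinearMap.rTensor_id,
    LinearMap.id_apply]

end lemmas

/-- **Quasi-`F`-purity of Fermat hypersurfaces when `p ≡ 2 mod n`.**  Let `p > 2` be a prime, `k` a
perfect field of characteristic `p`, `n ≥ 3` with `p ≡ 2 mod n`, and `1 < d < n`.  Then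
`R = k[x_1, ..., x_n]/(x_1^d + ... + x_n^d)` is quasi-`F`-pure; more precisely the map
`Φ_{R,2} : R → Q_{R,2}` splits. -/
theorem result (p : ℕ) [Fact p.Prime] (hp2 : 2 < p) (k : Type u) [Field k] [CharP k p]
    [PerfectField k] (n d : ℕ) (hn : 3 ≤ n) (hmod : p ≡ 2 [MOD n]) (hd : 1 < d) (hdn : d < n) :
    IsQuasiFPure p (FermatRing k n d) ∧ IsQuasiFSplitOfLength p 2 (FermatRing k n d) := by
  have hch : CharP (FermatRing k n d) p := charP_fermat p k n d (by omega)
  have hpr : PerfectRing k p := PerfectField.toPerfectRing p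
  obtain ⟨σ, hσ, h1⟩ : ∃ σ : TruncatedWittVector p 2 (FermatRing k n d) →+ FermatRing k n d,
      (∀ w x, σ (wFrob p 2 _ w * x) = w.coeff 0 * σ x) ∧ σ 1 = 1 :=
    @fermat_sigma p _ k _ _ _ n d hp2 hn hmod hd hdn hch
  obtain ⟨r, hr⟩ := split_of_sigma (p := p) (m := 1) (S := FermatRing k n d) σ hσ h1
  have hpure : IsQuasiFPureOfLength p 2 (FermatRing k n d) :=
    ⟨hch, 1, rfl, isPure_of_split _ r hr⟩
  exact ⟨⟨2, by omega, hpure⟩, ⟨hch, 1, rfl, r, hr⟩⟩

end Pool.Agent.Results.MP_34f229_ag.FermatQuasiFPure
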